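import Pool.Agent.W676.Ghost.Inf

/-!
Moving a ghost projection to a subset on which a finite-to-one map is injective.
-/

namespace Pool.Agent.W676.Ghost

open Filter
open scoped Classical NNReal ENNReal

section compact
variable {Z : Type}

lemma compact_rankOne (u w : L2 Z) : IsCompactOperator (InnerProductSpace.rankOne ℂ u w) := by
  have h : IsCompactOperator (ContinuousLinearMap.toSpanSingleton ℂ u) :=
    isCompactOperator_of_locallyCompactSpace_rng _
  exact h.comp_clm (innerSL ℂ w)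

lemma compact_sum {ι : Type*} (s : Finset ι) (f : ι → (L2 Z →L[ℂ] L2 Z))
    (h : ∀ i ∈ s, IsCompactOperator (f i)) :
    IsCompactOperator ((∑ i ∈ s, f i : L2 Z →L[ℂ] L2 Z) : L2 Z → L2 Z) := by
  induction s using Finset.induction_on with
  | empty =>
    exact isCompactOperator_zero
  | insert a s ha ih =>
    rw [Finset.sum_insert ha]
    exact (h a (Finset.mem_insert_self _ _)).add
      (ih (fun i hi => h i (Finset.mem_insert_of_mem hi)))

lemma ind_finset_eq (s : Finset Z) :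
    ind (s : Set Z) = ∑ z ∈ s, InnerProductSpace.rankOne ℂ (del z) (del z) := by
  apply ContinuousLinearMap.ext
  intro ξ
  rw [ind_finset, _root_.sum_apply]
  apply Finset.sum_congr rfl
  intro z _
  rw [InnerProductSpace.rankOne_apply, inner_del]

lemma compact_ind {S : Set Z} (hS : S.Finite) : IsCompactOperator (ind S) := by
  have h : ind S = ind ((hS.toFinset : Finset Z) : Set Z) := by rw [hS.coe_toFinset]
  rw [h, ind_finset_eq]
  exact compact_sum _ _ (fun z _ => compact_rankOne _ _)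

end compact

section proj
variable {Z : Type}

/-- diagonal entry of a projection -/
lemma norm_proj_del {q : L2 Z →L[ℂ] L2 Z} (hp : IsStarProjection q) (z : Z) :
    ((‖q (del z)‖ ^ 2 : ℝ) : ℂ) = entry q z z := by
  have h1 : entry q z z = inner ℂ (q (del z)) (q (del z)) := by
    have h2 : q (del z) = star q (q (del z)) := by
      rw [hp.isSelfAdjoint.star_eq]
      show q (del z) = (q * q) (del z)
      rw [hp.isIdempotentElem.eq]
    rw [entry]
    conv_lhs => rw [h2]
    rw [ContinuousLinearMap.star_eq_adjoint, ContinuousLinearMap.adjoint_inner_right]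
  rw [h1, inner_self_eq_norm_sq_to_K]
  push_cast; rfl

lemma entry_proj_le {q : L2 Z →L[ℂ] L2 Z} (hp : IsStarProjection q) (x y : Z) :
    ‖entry q x y‖ ≤ ‖q (del x)‖ * ‖q (del y)‖ := by
  have h1 : entry q x y = inner ℂ (q (del x)) (q (del y)) := by
    have h2 : q (del y) = star q (q (del y)) := by
      rw [hp.isSelfAdjoint.star_eq]
      show q (del y) = (q * q) (del y)
      rw [hp.isIdempotentElem.eq]
    rw [entry]
    conv_lhs => rw [h2]
    rw [ContinuousLinearMap.star_eq_adjoint, ContinuousLinearMap.adjoint_inner_right]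
  rw [h1]
  exact norm_inner_le_norm _ _

lemma proj_apply_le {q : L2 Z →L[ℂ] L2 Z} (hp : IsStarProjection q) (ξ : L2 Z) :
    ‖q ξ‖ ≤ ‖ξ‖ := by
  have h1 : ‖q‖ ≤ 1 := hp.norm_le
  calc ‖q ξ‖ ≤ ‖q‖ * ‖ξ‖ := q.le_opNorm ξ
    _ ≤ 1 * ‖ξ‖ := mul_le_mul_of_nonneg_right h1 (norm_nonneg _)
    _ = ‖ξ‖ := one_mul _

lemma proj_inner {q : L2 Z →L[ℂ] L2 Z} (hp : IsStarProjection q) (ξ η : L2 Z) :
    inner ℂ ξ (q η) = inner ℂ (q ξ) η := by
  conv_lhs => rw [← hp.isSelfAdjoint.star_eq]
  rw [ContinuousLinearMap.star_eq_adjoint, ContinuousLinearMap.adjoint_inner_right]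

end proj

/-- Removing finitely many points. -/
lemma remove_finite {Z : Type} [MetricSpace Z] {q : L2 Z →L[ℂ] L2 Z} (hq : q ∈ uRoe Z)
    (hp : IsStarProjection q) (F : Finset Z) :
    ∃ e : L2 Z →L[ℂ] L2 Z, e ∈ uRoe Z ∧ IsStarProjection e ∧ e * q = e ∧
      IsCompactOperator (q - e) ∧ ∀ z ∈ F, ∀ ξ : L2 Z, (e ξ) z = 0 := by
  let U : Submodule ℂ (L2 Z) :=
    Submodule.span ℂ ((F.image (fun z => q (del z)) : Finset (L2 Z)) : Set (L2 Z))
  have hfd : FiniteDimensional ℂ U := FiniteDimensional.span_finset ℂ _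
  set p : L2 Z →L[ℂ] L2 Z := U.starProjection with hpdef
  have hpp : IsStarProjection p := isStarProjection_starProjection
  have hqU : ∀ u ∈ U, q u = u := by
    intro u hu
    induction hu using Submodule.span_induction with
    | mem x hx =>
      rw [Finset.coe_image] at hx
      obtain ⟨z, _, rfl⟩ := hx
      show (q * q) (del z) = q (del z)
      rw [hp.isIdempotentElem.eq]
    | zero => exact map_zero _
    | add x y _ _ hx hy => rw [map_add, hx, hy]
    | smul a x _ hx => rw [map_smul, hx]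
  have hqp : q * p = p := by
    apply ContinuousLinearMap.ext
    intro ξ
    exact hqU _ (Submodule.starProjection_apply_mem U ξ)
  have hpq : p * q = p := by
    have := congrArg star hqp
    rwa [star_mul, hp.isSelfAdjoint.star_eq, hpp.isSelfAdjoint.star_eq] at this
  have hpr : p ∈ uRoe Z := by
    rw [hpdef, (stdOrthonormalBasis ℂ U).starProjection_eq_sum_rankOne]
    exact uRoe_sum _ _ (fun i _ => uRoe_rankOne _ _)
  have hpc : IsCompactOperator p := by
    rw [hpdef, (stdOrthonormalBasis ℂ U).starProjection_eq_sum_rankOne]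
    exact compact_sum _ _ (fun i _ => compact_rankOne _ _)
  have hep : IsStarProjection (q - p) := by
    constructor
    · show (q - p) * (q - p) = q - p
      rw [sub_mul, mul_sub, mul_sub, hp.isIdempotentElem.eq, hqp, hpq, hpp.isIdempotentElem.eq]
      abel
    · exact hp.isSelfAdjoint.sub hpp.isSelfAdjoint
  refine ⟨q - p, uRoe_sub hq hpr, hep, ?_, ?_, ?_⟩
  · rw [sub_mul, hp.isIdempotentElem.eq, hpq]
  · have : q - (q - p) = p := by abel
    rw [this]; exact hpc
  · intro z hz ξ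
    have h1 : q * (q - p) = q - p := by rw [mul_sub, hp.isIdempotentElem.eq, hqp]
    have h2 : p * (q - p) = 0 := by rw [mul_sub, hpq, hpp.isIdempotentElem.eq, sub_self]
    have h3 : ((q - p) ξ) z = inner ℂ (q (del z)) ((q - p) ξ) := by
      rw [← inner_del, ← proj_inner hp]
      congr 1
      show (q - p) ξ = (q * (q - p)) ξ
      rw [h1]
    have hmem : q (del z) ∈ U := Submodule.subset_span (by
      rw [Finset.coe_image]; exact ⟨z, Finset.mem_coe.2 hz, rfl⟩)
    have h4 : p (q (del z)) = q (del z) := Submodule.starProjection_eq_self_iff.2 hmem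
    rw [h3, ← h4, ← proj_inner hpp]
    have h5 : p ((q - p) ξ) = 0 := by
      show (p * (q - p)) ξ = 0
      rw [h2]; rfl
    rw [h5, inner_zero_right]

lemma norm_ind_op_le {Z : Type} (S : Set Z) : ‖ind S‖ ≤ 1 :=
  ContinuousLinearMap.opNorm_le_bound _ zero_le_one (fun ξ => by
    rw [one_mul]; exact norm_ind_le S ξ)

/-- The compression of a projection to a set on which it is bounded below. -/
lemma compress {Z : Type} [MetricSpace Z] {e : L2 Z →L[ℂ] L2 Z} (he : e ∈ uRoe Z)
    (hp : IsStarProjection e) (W : Set Z) {c : ℝ} (hc0 : 0 < c) (hc1 : c ≤ 1)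
    (hW : ∀ ξ, c * ‖e ξ‖ ^ 2 ≤ ‖ind W (e ξ)‖ ^ 2) :
    ∃ g : L2 Z →L[ℂ] L2 Z, g ∈ uRoe Z ∧ IsStarProjection g ∧ ind W * g = g ∧ g * ind W = g ∧
      (∃ K : ℝ, 0 < K ∧ ∀ z, ‖g (del z)‖ ≤ K * ‖e (del z)‖) ∧
      (IsCompactOperator g → IsCompactOperator e) := by
  set B := ind Wᶜ * e with hB
  set x := e * ind Wᶜ * e with hx
  have hBx : star B * B = x := by
    rw [hB, star_mul, hp.isSelfAdjoint.star_eq, ind_adj, hx]
    calc e * ind Wᶜ * (ind Wᶜ * e) = e * (ind Wᶜ * ind Wᶜ) * e := by simp only [mul_assoc]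
      _ = e * ind Wᶜ * e := by rw [ind_sq]
  have hBn : ‖B‖ ≤ √(1 - c) := by
    apply ContinuousLinearMap.opNorm_le_bound _ (Real.sqrt_nonneg _)
    intro ξ
    have h1 := norm_ind_split W (e ξ)
    have h2 := hW ξ
    have h3 := proj_apply_le hp ξ
    have h4 : ‖B ξ‖ ^ 2 ≤ (1 - c) * ‖ξ‖ ^ 2 := by
      have h5 : ‖B ξ‖ ^ 2 = ‖ind Wᶜ (e ξ)‖ ^ 2 := rfl
      have h6 : ‖e ξ‖ ^ 2 ≤ ‖ξ‖ ^ 2 := pow_le_pow_left₀ (norm_nonneg _) h3 2
      have h7 : (1 - c) * ‖e ξ‖ ^ 2 ≤ (1 - c) * ‖ξ‖ ^ 2 :=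
        mul_le_mul_of_nonneg_left h6 (by linarith)
      rw [h5]; linarith
    have h8 : ‖B ξ‖ = √(‖B ξ‖ ^ 2) := (Real.sqrt_sq (norm_nonneg _)).symm
    rw [h8]
    calc √(‖B ξ‖ ^ 2) ≤ √((1 - c) * ‖ξ‖ ^ 2) := Real.sqrt_le_sqrt h4
      _ = √(1 - c) * ‖ξ‖ := by
        rw [Real.sqrt_mul (by linarith), Real.sqrt_sq (norm_nonneg _)]
  have hxn : ‖x‖ < 1 := by
    have h0 : ‖x‖ ≤ ‖B‖ * ‖B‖ := by
      rw [← hBx]
      refine (norm_mul_le _ _).trans (le_of_eq ?_)
      have h00 : ‖star B‖ = ‖B‖ := by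
        rw [ContinuousLinearMap.star_eq_adjoint]
        exact LinearIsometryEquiv.norm_map _ B
      rw [h00]
    have h1 : ‖B‖ * ‖B‖ ≤ √(1 - c) * √(1 - c) :=
      mul_le_mul hBn hBn (norm_nonneg _) (Real.sqrt_nonneg _)
    rw [Real.mul_self_sqrt (by linarith)] at h1
    linarith
  set S := ∑' i : ℕ, x ^ i with hS
  have hS1 : (1 - x) * S = 1 := mul_neg_geom_series x hxn
  have hS2 : S * (1 - x) = 1 := geom_series_mul_neg x hxn
  have hxr : x ∈ uRoe Z :=
    uRoe_mul (uRoe_mul he (subset_closure (finProp_ind _))) he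
  have hSr : S ∈ uRoe Z := by
    have hsum : HasSum (fun i : ℕ => x ^ i) S :=
      (summable_geometric_of_norm_lt_one hxn).hasSum
    apply isClosed_uRoe.mem_of_tendsto hsum
    filter_upwards with s
    exact uRoe_sum _ _ (fun i _ => uRoe_pow hxr i)
  have hxs : star x = x := by
    rw [← hBx, star_mul, star_star]
  have hSs : star S = S := by
    have h1 : star S * (1 - x) = 1 := by
      have := congrArg star hS1
      rwa [star_mul, star_sub, star_one, hxs] at this
    calc star S = star S * ((1 - x) * S) := by rw [hS1, mul_one]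
      _ = (star S * (1 - x)) * S := by rw [mul_assoc]
      _ = S := by rw [h1, one_mul]
  have hee : e * e = e := hp.isIdempotentElem.eq
  have hex : e * x = x := by
    rw [hx, ← mul_assoc, ← mul_assoc, hee]
  have hxe : x * e = x := by
    rw [hx, mul_assoc, hee]
  have hcomm : e * (1 - x) = (1 - x) * e := by rw [mul_sub, sub_mul, hex, hxe, mul_one, one_mul]
  have heS : e * S = S * e := by
    calc e * S = (S * (1 - x)) * (e * S) := by rw [hS2, one_mul]
      _ = S * ((1 - x) * e) * S := by simp only [mul_assoc]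
      _ = S * (e * (1 - x)) * S := by rw [hcomm]
      _ = S * e * ((1 - x) * S) := by simp only [mul_assoc]
      _ = S * e := by rw [hS1, mul_one]
  have heWe : e * ind W * e = e * (1 - x) := by
    have h1 : ind W = 1 - ind Wᶜ := eq_sub_of_add_eq (ind_add_compl W)
    rw [h1, mul_sub, sub_mul, mul_one, hee, mul_sub, mul_one, hex, hx]
  set g := ind W * (S * e) * ind W with hg
  have hWg : ind W * g = g := by
    rw [hg, ← mul_assoc, ← mul_assoc, ind_sq]
  have hgW : g * ind W = g := by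
    rw [hg, mul_assoc, ind_sq]
  have hgs : star g = g := by
    rw [hg, star_mul, star_mul, star_mul, hSs, hp.isSelfAdjoint.star_eq, ind_adj, heS,
      ← mul_assoc]
  have hgg : g * g = g := by
    calc g * g = ind W * S * e * (ind W * ind W) * (S * e) * ind W := by
          rw [hg]; simp only [mul_assoc]
      _ = ind W * S * (e * ind W * e) * S * ind W := by
          rw [ind_sq, ← heS]; simp only [mul_assoc]
      _ = ind W * S * e * ((1 - x) * S) * ind W := by rw [heWe]; simp only [mul_assoc]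
      _ = g := by rw [hS1, mul_one, hg]; simp only [mul_assoc]
  refine ⟨g, ?_, ⟨hgg, hgs⟩, hWg, hgW, ⟨‖S‖ + 1, by positivity, ?_⟩, ?_⟩
  · have hWr : ind W ∈ uRoe Z := subset_closure (finProp_ind _)
    exact uRoe_mul (uRoe_mul hWr (uRoe_mul hSr he)) hWr
  · intro z
    by_cases hz : z ∈ W
    · have h1 : ind W (del z) = del z := by
        ext y
        rw [ind_apply, del_apply]
        by_cases h : y = z
        · subst h; simp [hz]
        · simp [h]
      have h2 : g (del z) = ind W (S (e (ind W (del z)))) := rfl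
      rw [h2, h1]
      calc ‖ind W (S (e (del z)))‖ ≤ ‖S (e (del z))‖ := norm_ind_le _ _
        _ ≤ ‖S‖ * ‖e (del z)‖ := S.le_opNorm _
        _ ≤ (‖S‖ + 1) * ‖e (del z)‖ := mul_le_mul_of_nonneg_right (by linarith) (norm_nonneg _)
    · have h1 : ind W (del z) = 0 := by
        ext y
        rw [ind_apply, del_apply]
        by_cases h : y = z
        · subst h; simp [hz]
        · simp [h]
      have h2 : g (del z) = ind W (S (e (ind W (del z)))) := rfl
      rw [h2, h1, map_zero, map_zero, map_zero, norm_zero]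
      positivity
  · intro hgc
    have h1 : e = e * (g * (e * S)) := by
      calc e = e * e * ((1 - x) * S) := by rw [hS1, mul_one, hee]
        _ = (e * (e * (1 - x))) * S := by simp only [mul_assoc]
        _ = (e * ind W * e) * S := by rw [← heWe, ← mul_assoc, ← mul_assoc, hee]
        _ = e * ind W * (S * (1 - x)) * e * S := by rw [hS2, mul_one]
        _ = e * ind W * S * ((1 - x) * e) * S := by simp only [mul_assoc]
        _ = e * ind W * S * (e * (1 - x)) * S := by rw [hcomm]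
        _ = e * ind W * S * (e * ind W * e) * S := by rw [heWe]
        _ = e * ((ind W * (S * e) * ind W) * (e * S)) := by simp only [mul_assoc]
        _ = e * (g * (e * S)) := by rw [hg]
    have h2 : IsCompactOperator (g * (e * S) : L2 Z →L[ℂ] L2 Z) := hgc.comp_clm (e * S)
    have h3 : IsCompactOperator (e * (g * (e * S)) : L2 Z →L[ℂ] L2 Z) := h2.clm_comp e
    rw [h1]; exact h3

/-- **Moving a ghost projection.** -/
theorem corner {Z X : Type} [MetricSpace Z] (N : ℕ) (f : Z → X)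
    (hf : ∀ z, {z' | f z' = f z}.encard ≤ N) {q : L2 Z →L[ℂ] L2 Z} (hq : q ∈ uRoe Z)
    (hp : IsStarProjection q) (hgh : IsGhost q) :
    ∃ W : Set Z, Set.InjOn f W ∧ ∃ g : L2 Z →L[ℂ] L2 Z, g ∈ uRoe Z ∧ IsStarProjection g ∧
      IsGhost g ∧ ind W * g = g ∧ g * ind W = g ∧ (IsCompactOperator g → IsCompactOperator q) := by
  have hsmall : ∀ δ : ℝ, 0 < δ → ∃ F : Finset Z, ∀ z ∉ F, ‖q (del z)‖ ^ 2 < δ := by
    intro δ hδ
    obtain ⟨F, hF, hF2⟩ := hgh δ hδ
    refine ⟨hF.toFinset, fun z hz => ?_⟩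
    have h1 := hF2 z z (fun h => hz (hF.mem_toFinset.2 h.1))
    rw [← norm_proj_del hp, Complex.norm_real, Real.norm_eq_abs,
      abs_of_nonneg (sq_nonneg _)] at h1
    exact h1
  obtain ⟨F, hF⟩ := hsmall ((1 / 64) * (1 / 4) ^ N) (by positivity)
  obtain ⟨e, her, hep, heq, hec, heF⟩ := remove_finite hq hp F
  have hele : ∀ z, ‖e (del z)‖ ≤ ‖q (del z)‖ := by
    intro z
    have : e (del z) = e (q (del z)) := by
      show e (del z) = (e * q) (del z)
      rw [heq]
    rw [this]
    exact proj_apply_le hep _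
  obtain ⟨W, hW1, hW2⟩ := inf_selection N f hf (LinearMap.range (e : L2 Z →ₗ[ℂ] L2 Z)) (by
    rintro _ ⟨ξ, rfl⟩ z
    by_cases hz : z ∈ F
    · have h1 : ((e : L2 Z →ₗ[ℂ] L2 Z) ξ) z = 0 := heF z hz ξ
      rw [h1, norm_zero, zero_pow (by norm_num)]
      positivity
    · have h1 : ((e : L2 Z →ₗ[ℂ] L2 Z) ξ) z = inner ℂ (e (del z)) (e ξ) := by
        rw [← proj_inner hep, inner_del]
        have h0 : e (e ξ) = e ξ := by
          show (e * e) ξ = e ξ
          rw [hep.isIdempotentElem.eq]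
        rw [h0]; rfl
      have h2 : ‖((e : L2 Z →ₗ[ℂ] L2 Z) ξ) z‖ ≤ ‖q (del z)‖ * ‖e ξ‖ := by
        rw [h1]
        exact (norm_inner_le_norm _ _).trans
          (mul_le_mul_of_nonneg_right (hele z) (norm_nonneg _))
      have h3 := hF z hz
      calc ‖((e : L2 Z →ₗ[ℂ] L2 Z) ξ) z‖ ^ 2 ≤ (‖q (del z)‖ * ‖e ξ‖) ^ 2 :=
            pow_le_pow_left₀ (norm_nonneg _) h2 2
        _ = ‖q (del z)‖ ^ 2 * ‖e ξ‖ ^ 2 := by ring
        _ ≤ (1 / 64) * (1 / 4) ^ N * ‖e ξ‖ ^ 2 :=
            mul_le_mul_of_nonneg_right h3.le (sq_nonneg _))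
  have hc1 : (1 / 2 : ℝ) * (1 / 4) ^ N ≤ 1 := by
    have : ((1 : ℝ) / 4) ^ N ≤ 1 := pow_le_one₀ (by norm_num) (by norm_num)
    linarith
  obtain ⟨g, h1, h2, h3, h4, ⟨K, hK0, hK⟩, h6⟩ := compress her hep W
    (c := (1 / 2) * (1 / 4) ^ N) (by positivity) hc1 (fun ξ => hW2 _ ⟨ξ, rfl⟩)
  refine ⟨W, hW1, g, h1, h2, ?_, h3, h4, ?_⟩
  · intro ε hε
    obtain ⟨G, hG⟩ := hsmall ((ε / K) ^ 2) (by positivity)
    have hgle1 : ∀ z, ‖g (del z)‖ ≤ 1 := fun z => by
      have := proj_apply_le h2 (del z)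
      rwa [norm_del] at this
    have hgsm : ∀ z ∉ G, ‖g (del z)‖ < ε := by
      intro z hz
      have h7 := hG z hz
      have h8 : ‖q (del z)‖ < ε / K := lt_of_pow_lt_pow_left₀ 2 (by positivity) h7
      calc ‖g (del z)‖ ≤ K * ‖e (del z)‖ := hK z
        _ ≤ K * ‖q (del z)‖ := mul_le_mul_of_nonneg_left (hele z) hK0.le
        _ < K * (ε / K) := mul_lt_mul_of_pos_left h8 hK0
        _ = ε := by field_simp
    refine ⟨G, G.finite_toSet, fun x y hxy => ?_⟩
    have h9 := entry_proj_le h2 x y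
    by_cases hx : x ∈ G
    · have hy : y ∉ G := fun h => hxy ⟨hx, h⟩
      calc _ ≤ _ := h9
        _ ≤ 1 * ‖g (del y)‖ := mul_le_mul_of_nonneg_right (hgle1 x) (norm_nonneg _)
        _ < ε := by rw [one_mul]; exact hgsm y hy
    · calc _ ≤ _ := h9
        _ ≤ ‖g (del x)‖ * 1 := mul_le_mul_of_nonneg_left (hgle1 y) (norm_nonneg _)
        _ < ε := by rw [mul_one]; exact hgsm x hx
  · intro hgc
    have h7 := (h6 hgc).add hec
    have h8 : (e : L2 Z → L2 Z) + ((q - e : L2 Z →L[ℂ] L2 Z) : L2 Z → L2 Z) = q := by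
      funext ξ
      show e ξ + (q ξ - e ξ) = q ξ
      abel
    rwa [h8] at h7

end Pool.Agent.W676.Ghost
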