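import Mathlib

/-!
Uniform Roe algebras, ghost operators, sparse subspaces, coarse embeddings.
-/

namespace Pool.Agent.W676.Ghost

open Filter
open scoped Classical NNReal

/-- The Hilbert space of square summable functions on `X`. -/
noncomputable abbrev L2 (X : Type) : Type := lp (fun _ : X => ℂ) 2

/-- Bounded operators on the Hilbert space `L2 X`. -/
noncomputable abbrev Op (X : Type) := L2 X →L[ℂ] L2 X

/-- The basis vector at the point `x`. -/
noncomputable def del {X : Type} (x : X) : L2 X := lp.single 2 x (1 : ℂ)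

/-- The matrix entry of `T` at `(x, y)`: the inner product of `T δ_y` with `δ_x`. -/
noncomputable def entry {X : Type} (T : Op X) (x y : X) : ℂ := inner ℂ (del x) (T (del y))

/-- Uniformly locally finite metric spaces. -/
def ULF (X : Type) [MetricSpace X] : Prop :=
  ∀ r : ℝ, ∃ N : ℕ, ∀ x : X, (Metric.closedBall x r).encard ≤ N

/-- Operators of finite propagation. -/
def FinProp {X : Type} [MetricSpace X] (T : Op X) : Prop :=
  ∃ r : ℝ, ∀ x y : X, entry T x y ≠ 0 → dist x y ≤ r

/-- The uniform Roe algebra: the norm closure of the operators of finite propagation. -/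
def uRoe (X : Type) [MetricSpace X] : Set (Op X) := closure {T | FinProp T}

/-- Ghost operators. -/
def IsGhost {X : Type} (T : Op X) : Prop :=
  ∀ ε : ℝ, 0 < ε → ∃ F : Set X, F.Finite ∧ ∀ x y : X, ¬ (x ∈ F ∧ y ∈ F) → ‖entry T x y‖ < ε

/-- Sparse subsets of a metric space. -/
def Sparse {X : Type} [MetricSpace X] (S : Set X) : Prop :=
  ∃ A : ℕ → Set X, (∀ n, (A n).Finite ∧ (A n).Nonempty) ∧ (∀ n m, n ≠ m → Disjoint (A n) (A m)) ∧
    (⋃ n, A n) = S ∧
    ∀ R : ℝ, ∃ K : ℕ, ∀ n m, n ≠ m → K ≤ n + m → ∀ x ∈ A n, ∀ y ∈ A m, R ≤ dist x y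

/-- All sparse subspaces of `X` yield only compact ghost projections. -/
def OnlyCompactGhosts (X : Type) [MetricSpace X] : Prop :=
  ∀ S : Set X, Sparse S → ∀ p : Op S, p ∈ uRoe S → IsStarProjection p → IsGhost p → IsCompactOperator p

/-- Coarse embeddings. -/
def CoarseEmb {X Y : Type} [MetricSpace X] [MetricSpace Y] (f : Y → X) : Prop :=
  ∃ ρm ρp : ℝ≥0 → ℝ≥0, Monotone ρm ∧ Monotone ρp ∧ Tendsto ρm atTop atTop ∧
    ∀ y y' : Y, ρm (nndist y y') ≤ nndist (f y) (f y') ∧ nndist (f y) (f y') ≤ ρp (nndist y y')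

end Pool.Agent.W676.Ghost
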