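import Pool.Agent.W676.Ghost.Ops
import Pool.Agent.W676.KS.Fibre

/-!
Selection from the fibres of a map on an infinite set.
-/

namespace Pool.Agent.W676.Ghost

open Filter
open scoped Classical NNReal ENNReal

variable {Z X : Type}

lemma ind_compl_apply (S : Set Z) (ξ : L2 Z) : ind Sᶜ ξ = ξ - ind S ξ := by
  have := congrArg (fun T : L2 Z →L[ℂ] L2 Z => T ξ) (ind_add_compl S)
  have h2 : ind S ξ + ind Sᶜ ξ = ξ := this
  exact eq_sub_of_add_eq' h2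

lemma norm_ind_mono {S T : Set Z} (h : S ⊆ T) (ξ : L2 Z) : ‖ind S ξ‖ ≤ ‖ind T ξ‖ := by
  have h1 : ind S (ind T ξ) = ind S ξ := by
    show (ind S * ind T) ξ = ind S ξ
    rw [ind_mul, Set.inter_eq_left.2 h]
  rw [← h1]
  exact norm_ind_le S _

lemma exists_finset_small (U : Submodule ℂ (L2 Z)) [FiniteDimensional ℂ U] :
    ∃ F : Finset Z, ∀ ξ ∈ U, ‖ind ((F : Set Z)ᶜ) ξ‖ ^ 2 ≤ (1 / 2) * ‖ξ‖ ^ 2 := by
  let b := stdOrthonormalBasis ℂ U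
  set d := Module.finrank ℂ U
  have hd : (0 : ℝ) < 1 / (2 * (d + 1)) := by positivity
  have hev : ∀ᶠ F : Finset Z in atTop, ∀ i, ‖ind ((F : Set Z)ᶜ) (b i : L2 Z)‖ ≤ 1 / (2 * (d + 1)) := by
    rw [eventually_all]
    intro i
    have h1 := tendsto_ind (b i : L2 Z)
    have h2 : Tendsto (fun s : Finset Z => ‖ind ((s : Set Z)ᶜ) (b i : L2 Z)‖) atTop (nhds 0) := by
      have h3 := ((tendsto_const_nhds (x := (b i : L2 Z))).sub h1).norm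
      rw [sub_self, norm_zero] at h3
      refine h3.congr (fun s => ?_)
      rw [ind_compl_apply]
    exact (h2.eventually (gt_mem_nhds hd)).mono (fun _ h => le_of_lt h)
  obtain ⟨F, hF⟩ := hev.exists
  refine ⟨F, fun ξ hξ => ?_⟩
  have h1 : (⟨ξ, hξ⟩ : U) = ∑ i, inner ℂ (b i) (⟨ξ, hξ⟩ : U) • b i := (b.sum_repr' _).symm
  have h2 : ξ = ∑ i, inner ℂ (b i) (⟨ξ, hξ⟩ : U) • (b i : L2 Z) := by
    have := congrArg Subtype.val h1
    simpa using this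
  have h3 : ‖ind ((F : Set Z)ᶜ) ξ‖ ≤ (1 / 2) * ‖ξ‖ := by
    calc ‖ind ((F : Set Z)ᶜ) ξ‖
        = ‖∑ i, inner ℂ (b i) (⟨ξ, hξ⟩ : U) • ind ((F : Set Z)ᶜ) (b i : L2 Z)‖ := by
          conv_lhs => rw [h2]
          rw [map_sum]
          simp only [map_smul]
      _ ≤ ∑ i, ‖inner ℂ (b i) (⟨ξ, hξ⟩ : U) • ind ((F : Set Z)ᶜ) (b i : L2 Z)‖ :=
          norm_sum_le _ _
      _ ≤ ∑ _i : Fin d, ‖ξ‖ * (1 / (2 * (d + 1))) := by
          apply Finset.sum_le_sum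
          intro i _
          rw [norm_smul]
          apply mul_le_mul _ (hF i) (norm_nonneg _) (norm_nonneg _)
          have := norm_inner_le_norm (𝕜 := ℂ) (b i) (⟨ξ, hξ⟩ : U)
          rwa [b.norm_eq_one, one_mul] at this
      _ = (d : ℝ) * (‖ξ‖ * (1 / (2 * (d + 1)))) := by simp
      _ ≤ (1 / 2) * ‖ξ‖ := by
          have : (d : ℝ) * (‖ξ‖ * (1 / (2 * (d + 1)))) = (1 / 2) * ‖ξ‖ * (d / (d + 1)) := by
            field_simp
          rw [this]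
          have h4 : (d : ℝ) / (d + 1) ≤ 1 := by
            rw [div_le_one (by positivity)]; linarith
          exact mul_le_of_le_one_right (by positivity) h4
  nlinarith [norm_nonneg (ind ((F : Set Z)ᶜ) ξ), norm_nonneg ξ]

lemma fin_selection (N : ℕ) (f : Z → X) (hf : ∀ z, {z' | f z' = f z}.encard ≤ N)
    (V : Submodule ℂ (L2 Z)) (hV : ∀ ξ ∈ V, ∀ z, ‖ξ z‖ ^ 2 ≤ (1 / 64) * (1 / 4) ^ N * ‖ξ‖ ^ 2)
    (U : Submodule ℂ (L2 Z)) [FiniteDimensional ℂ U] (hU : U ≤ V) :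
    ∃ W : Finset Z, (∀ a ∈ W, ∀ b ∈ W, f a = f b → a = b) ∧
      ∀ ξ ∈ U, (1 / 2) * (1 / 4) ^ N * ‖ξ‖ ^ 2 ≤ ∑ z ∈ W, ‖ξ z‖ ^ 2 := by
  obtain ⟨F, hF⟩ := exists_finset_small U
  have hF2 : ∀ ξ ∈ U, ‖ξ‖ ^ 2 ≤ 2 * ∑ z ∈ F, ‖ξ z‖ ^ 2 := by
    intro ξ hξ
    have h1 := norm_ind_split (F : Set Z) ξ
    have h2 := hF ξ hξ
    rw [norm_ind_finset] at h1
    linarith
  let ρ : L2 Z →ₗ[ℂ] (F → ℂ) :=
    { toFun := fun ξ y => ξ y.1
      map_add' := fun ξ η => rfl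
      map_smul' := fun c ξ => rfl }
  have hsub : ∀ ξ : L2 Z, ∑ y : F, ‖ρ ξ y‖ ^ 2 = ∑ z ∈ F, ‖ξ z‖ ^ 2 := by
    intro ξ
    exact Finset.sum_coe_sort F (fun z => ‖ξ z‖ ^ 2)
  obtain ⟨W, hW1, hW2⟩ := KS.fibre_selection N (Y := F) (fun y => f y.1) (by
      intro y
      have h1 : (Subtype.val '' {y' : F | f y'.1 = f y.1}) ⊆ {z' | f z' = f y.1} := by
        rintro _ ⟨y', hy', rfl⟩; exact hy'
      have h2 : {y' : F | f y'.1 = f y.1}.encard ≤ N := by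
        rw [← Subtype.val_injective.encard_image]
        exact (Set.encard_le_encard h1).trans (hf y.1)
      have h3 : {y' : F | f y'.1 = f y.1}.Finite := Set.toFinite _
      rw [← h3.cast_ncard_eq] at h2
      exact_mod_cast h2) (U.map ρ) (by
      rintro _ ⟨ξ, hξ, rfl⟩ y
      rw [hsub]
      have h1 := hV ξ (hU hξ) y.1
      have h2 := hF2 ξ hξ
      have hp : (0 : ℝ) < (1 / 4) ^ N := by positivity
      calc ‖ρ ξ y‖ ^ 2 ≤ (1 / 64) * (1 / 4) ^ N * ‖ξ‖ ^ 2 := h1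
        _ ≤ (1 / 64) * (1 / 4) ^ N * (2 * ∑ z ∈ F, ‖ξ z‖ ^ 2) :=
          mul_le_mul_of_nonneg_left h2 (by positivity)
        _ = _ := by ring)
  refine ⟨W.map (Function.Embedding.subtype _), ?_, ?_⟩
  · intro a ha b hb hab
    rw [Finset.mem_map] at ha hb
    obtain ⟨a', ha', rfl⟩ := ha
    obtain ⟨b', hb', rfl⟩ := hb
    exact congrArg Subtype.val (hW1 a' ha' b' hb' hab)
  · intro ξ hξ
    have h1 := hW2 (ρ ξ) ⟨ξ, hξ, rfl⟩
    rw [hsub] at h1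
    have h2 := hF2 ξ hξ
    rw [Finset.sum_map]
    have hp : (0 : ℝ) < (1 / 4) ^ N := by positivity
    calc (1 / 2) * (1 / 4) ^ N * ‖ξ‖ ^ 2 ≤ (1 / 2) * (1 / 4) ^ N * (2 * ∑ z ∈ F, ‖ξ z‖ ^ 2) :=
          mul_le_mul_of_nonneg_left h2 (by positivity)
      _ = (1 / 4) ^ N * ∑ z ∈ F, ‖ξ z‖ ^ 2 := by ring
      _ ≤ _ := h1

/-- **Selection from the fibres of a map, for a space of square summable functions.** -/
theorem inf_selection (N : ℕ) (f : Z → X) (hf : ∀ z, {z' | f z' = f z}.encard ≤ N)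
    (V : Submodule ℂ (L2 Z)) (hV : ∀ ξ ∈ V, ∀ z, ‖ξ z‖ ^ 2 ≤ (1 / 64) * (1 / 4) ^ N * ‖ξ‖ ^ 2) :
    ∃ W : Set Z, Set.InjOn f W ∧
      ∀ ξ ∈ V, (1 / 2) * (1 / 4) ^ N * ‖ξ‖ ^ 2 ≤ ‖ind W ξ‖ ^ 2 := by
  have hfin : ∀ T : Finset V, ∃ W : Finset Z, (∀ a ∈ W, ∀ b ∈ W, f a = f b → a = b) ∧
      ∀ ξ ∈ T, (1 / 2) * (1 / 4) ^ N * ‖(ξ : L2 Z)‖ ^ 2 ≤ ∑ z ∈ W, ‖(ξ : L2 Z) z‖ ^ 2 := by
    intro T
    let U : Submodule ℂ (L2 Z) := Submodule.span ℂ ((T.image (Subtype.val : V → L2 Z)) : Set (L2 Z))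
    have : FiniteDimensional ℂ U := FiniteDimensional.span_finset ℂ _
    have hUV : U ≤ V := by
      apply Submodule.span_le.2
      intro ξ hξ
      rw [Finset.coe_image] at hξ
      obtain ⟨η, _, rfl⟩ := hξ
      exact η.2
    obtain ⟨W, h1, h2⟩ := fin_selection N f hf V hV U hUV
    refine ⟨W, h1, fun ξ hξ => h2 ξ (Submodule.subset_span ?_)⟩
    exact Finset.mem_coe.2 (Finset.mem_image_of_mem _ hξ)
  choose Wf hW1 hW2 using hfin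
  let 𝒰 : Ultrafilter (Finset V) := Ultrafilter.of atTop
  have h𝒰 : (𝒰 : Filter (Finset V)) ≤ atTop := Ultrafilter.of_le _
  refine ⟨{z | ∀ᶠ T in (𝒰 : Filter (Finset V)), z ∈ Wf T}, ?_, ?_⟩
  · intro a ha b hb hab
    obtain ⟨T, h1, h2⟩ := (Filter.Eventually.and ha hb).exists
    exact hW1 T a h1 b h2 hab
  · intro ξ hξ
    set W : Set Z := {z | ∀ᶠ T in (𝒰 : Filter (Finset V)), z ∈ Wf T} with hWdef
    by_contra hneg
    push Not at hneg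
    set δ := (1 / 2) * (1 / 4) ^ N * ‖ξ‖ ^ 2 - ‖ind W ξ‖ ^ 2 with hδ
    have hδ0 : 0 < δ := by linarith
    obtain ⟨G, hG⟩ : ∃ G : Finset Z, ‖ind ((G : Set Z)ᶜ) ξ‖ ^ 2 < δ := by
      have h1 := tendsto_ind ξ
      have h2 : Tendsto (fun s : Finset Z => ‖ind ((s : Set Z)ᶜ) ξ‖ ^ 2) atTop (nhds 0) := by
        have h3 := (((tendsto_const_nhds (x := ξ)).sub h1).norm).pow 2
        rw [sub_self, norm_zero, zero_pow (by norm_num)] at h3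
        refine h3.congr (fun s => ?_)
        rw [ind_compl_apply]
      exact (h2.eventually (gt_mem_nhds hδ0)).exists
    have h1 : ∀ᶠ T in (𝒰 : Filter (Finset V)), ∀ z ∈ G, (z ∈ Wf T ↔ z ∈ W) := by
      rw [Finset.eventually_all]
      intro z _
      by_cases hz : z ∈ W
      · have hz' : ∀ᶠ T in (𝒰 : Filter (Finset V)), z ∈ Wf T := hz
        exact hz'.mono (fun T hT => ⟨fun _ => hz, fun _ => hT⟩)
      · have hz' : ¬ ∀ᶠ T in (𝒰 : Filter (Finset V)), z ∈ Wf T := hz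
        rw [← Ultrafilter.eventually_not] at hz'
        exact hz'.mono (fun T hT => ⟨fun h => absurd h hT, fun h => absurd h hz⟩)
    have h2 : ∀ᶠ T in (𝒰 : Filter (Finset V)), (⟨ξ, hξ⟩ : V) ∈ T := by
      apply h𝒰
      filter_upwards [eventually_ge_atTop ({⟨ξ, hξ⟩} : Finset V)] with T hT
      exact hT (Finset.mem_singleton_self _)
    obtain ⟨T, hT1, hT2⟩ := (h1.and h2).exists
    have h3 := hW2 T _ hT2
    have h4 : ∑ z ∈ Wf T, ‖ξ z‖ ^ 2 =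
        ∑ z ∈ (Wf T).filter (· ∈ G), ‖ξ z‖ ^ 2 + ∑ z ∈ (Wf T).filter (¬ · ∈ G), ‖ξ z‖ ^ 2 :=
      (Finset.sum_filter_add_sum_filter_not _ _ _).symm
    have h5 : ∑ z ∈ (Wf T).filter (· ∈ G), ‖ξ z‖ ^ 2 ≤ ‖ind W ξ‖ ^ 2 := by
      rw [← norm_ind_finset]
      apply pow_le_pow_left₀ (norm_nonneg _)
      apply norm_ind_mono
      intro z hz
      have hz := Finset.mem_filter.1 (Finset.mem_coe.1 hz)
      exact (hT1 z hz.2).1 hz.1
    have h6 : ∑ z ∈ (Wf T).filter (¬ · ∈ G), ‖ξ z‖ ^ 2 ≤ ‖ind ((G : Set Z)ᶜ) ξ‖ ^ 2 := by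
      rw [← norm_ind_finset]
      apply pow_le_pow_left₀ (norm_nonneg _)
      apply norm_ind_mono
      intro z hz
      have hz := Finset.mem_filter.1 (Finset.mem_coe.1 hz)
      exact fun h => hz.2 (Finset.mem_coe.1 h)
    have h7 : (1 / 2) * (1 / 4) ^ N * ‖ξ‖ ^ 2 ≤ ∑ z ∈ Wf T, ‖ξ z‖ ^ 2 := h3
    linarith

end Pool.Agent.W676.Ghost
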