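import Pool.Agent.W676.Ghost.Corner

/-!
Coarse embeddings and compactness of ghost projections on sparse subspaces.
-/

namespace Pool.Agent.W676.Ghost

open Filter
open scoped Classical NNReal ENNReal

/-- Transport of an operator along an injection. -/
noncomputable def tr {X Z : Type} (j : X → Z) (hj : Function.Injective j)
    (a : L2 Z →L[ℂ] L2 Z) : L2 X →L[ℂ] L2 X :=
  (res j hj).comp (a.comp (ext j hj))

lemma entry_tr {X Z : Type} {j : X → Z} (hj : Function.Injective j) (a : L2 Z →L[ℂ] L2 Z)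
    (x y : X) : entry (tr j hj a) x y = entry a (j x) (j y) := by
  rw [entry_eq, entry_eq]
  show (res j hj (a (ext j hj (del y)))) x = _
  rw [ext_del, res_apply]

lemma continuous_tr {X Z : Type} {j : X → Z} (hj : Function.Injective j) :
    Continuous (tr j hj) := by
  unfold tr
  fun_prop

lemma isStarProjection_tr {X Z : Type} {j : X → Z} (hj : Function.Injective j)
    {g : L2 Z →L[ℂ] L2 Z} (hg : IsStarProjection g) (h1 : ind (Set.range j) * g = g) :
    IsStarProjection (tr j hj g) := by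
  constructor
  · show tr j hj g * tr j hj g = tr j hj g
    apply ContinuousLinearMap.ext
    intro ξ
    show res j hj (g (ext j hj (res j hj (g (ext j hj ξ))))) = res j hj (g (ext j hj ξ))
    rw [ext_res]
    have h2 : ind (Set.range j) (g (ext j hj ξ)) = g (ext j hj ξ) :=
      congrArg (fun T : L2 Z →L[ℂ] L2 Z => T (ext j hj ξ)) h1
    rw [h2]
    have h3 : g (g (ext j hj ξ)) = g (ext j hj ξ) :=
      congrArg (fun T : L2 Z →L[ℂ] L2 Z => T (ext j hj ξ)) hg.isIdempotentElem.eq
    rw [h3]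
  · show star (tr j hj g) = tr j hj g
    rw [ContinuousLinearMap.star_eq_adjoint, tr, ContinuousLinearMap.adjoint_comp,
      ContinuousLinearMap.adjoint_comp, ext, ContinuousLinearMap.adjoint_adjoint,
      ← ContinuousLinearMap.star_eq_adjoint g, hg.isSelfAdjoint.star_eq,
      ContinuousLinearMap.comp_assoc]

lemma compact_of_tr {X Z : Type} {j : X → Z} (hj : Function.Injective j)
    {g : L2 Z →L[ℂ] L2 Z} (h1 : ind (Set.range j) * g = g) (h2 : g * ind (Set.range j) = g)
    (h : IsCompactOperator (tr j hj g)) : IsCompactOperator g := by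
  have h3 : g = (ext j hj).comp ((tr j hj g).comp (res j hj)) := by
    apply ContinuousLinearMap.ext
    intro ξ
    show g ξ = ext j hj (res j hj (g (ext j hj (res j hj ξ))))
    rw [ext_res, ext_res]
    have h4 : ind (Set.range j) (g (ind (Set.range j) ξ)) = g (ind (Set.range j) ξ) :=
      congrArg (fun T : L2 Z →L[ℂ] L2 Z => T (ind (Set.range j) ξ)) h1
    have h5 : g (ind (Set.range j) ξ) = g ξ :=
      congrArg (fun T : L2 Z →L[ℂ] L2 Z => T ξ) h2
    rw [h4, h5]
  rw [h3]
  exact (h.comp_clm (res j hj)).clm_comp (ext j hj)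

lemma sparse_image {X Z : Type} [MetricSpace X] [MetricSpace Z] {f : Z → X}
    {ρm : ℝ≥0 → ℝ≥0} (hρ : Monotone ρm) (hρt : Tendsto ρm atTop atTop)
    (hf : ∀ y y' : Z, ρm (nndist y y') ≤ nndist (f y) (f y'))
    {A : ℕ → Set Z} (hA : ∀ n, (A n).Finite) (hAd : ∀ n m, n ≠ m → Disjoint (A n) (A m))
    (hAu : (⋃ n, A n) = Set.univ)
    (hAf : ∀ R : ℝ, ∃ K : ℕ, ∀ n m, n ≠ m → K ≤ n + m → ∀ x ∈ A n, ∀ y ∈ A m, R ≤ dist x y)
    {W : Set Z} (hW : Set.InjOn f W) (hinf : W.Infinite) : Sparse (f '' W) := by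
  set I : Set ℕ := {n | (A n ∩ W).Nonempty} with hI
  have hIinf : I.Infinite := by
    intro hfin
    apply hinf
    have h1 : W ⊆ ⋃ n ∈ I, A n := by
      intro z hz
      have : z ∈ ⋃ n, A n := by rw [hAu]; trivial
      obtain ⟨n, hn⟩ := Set.mem_iUnion.1 this
      exact Set.mem_biUnion (show n ∈ I from ⟨z, hn, hz⟩) hn
    exact (hfin.biUnion (fun n _ => hA n)).subset h1
  set nn : ℕ → ℕ := Nat.nth (· ∈ I) with hnn
  have hnnI : ∀ k, nn k ∈ I := fun k => Nat.nth_mem_of_infinite hIinf k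
  have hmono : StrictMono nn := Nat.nth_strictMono hIinf
  refine ⟨fun k => f '' (A (nn k) ∩ W), ?_, ?_, ?_, ?_⟩
  · intro k
    exact ⟨((hA _).subset Set.inter_subset_left).image _, (hnnI k).image _⟩
  · intro k l hkl
    rw [Set.disjoint_left]
    rintro _ ⟨a, ha, rfl⟩ ⟨b, hb, hab⟩
    have h1 := hW hb.2 ha.2 hab
    subst h1
    exact Set.disjoint_left.1 (hAd _ _ (fun h => hkl (hmono.injective h))) ha.1 hb.1
  · ext x
    constructor
    · intro hx
      obtain ⟨k, a, ha, rfl⟩ := Set.mem_iUnion.1 hx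
      exact ⟨a, ha.2, rfl⟩
    · rintro ⟨a, ha, rfl⟩
      have : a ∈ ⋃ n, A n := by rw [hAu]; trivial
      obtain ⟨n, hn⟩ := Set.mem_iUnion.1 this
      have hnI : n ∈ I := ⟨a, hn, ha⟩
      refine Set.mem_iUnion.2 ⟨Nat.count (· ∈ I) n, a, ⟨?_, ha⟩, rfl⟩
      rw [hnn, Nat.nth_count hnI]; exact hn
  · intro R
    obtain ⟨R1, hR1⟩ := (tendsto_atTop.1 hρt (Real.toNNReal R)).exists_forall_of_atTop
    obtain ⟨K, hK⟩ := hAf R1
    refine ⟨K, ?_⟩
    rintro k l hkl hKkl _ ⟨a, ha, rfl⟩ _ ⟨b, hb, rfl⟩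
    have h1 := hK (nn k) (nn l) (fun h => hkl (hmono.injective h))
      (hKkl.trans (add_le_add (hmono.le_apply) (hmono.le_apply))) a ha.1 b hb.1
    have h2 : R1 ≤ nndist a b := by
      rw [← NNReal.coe_le_coe, coe_nndist]; exact h1
    have h3 := (hR1 _ h2).trans (hf a b)
    have h4 : R ≤ (Real.toNNReal R : ℝ) := Real.le_coe_toNNReal R
    calc R ≤ (Real.toNNReal R : ℝ) := h4
      _ ≤ (nndist (f a) (f b) : ℝ) := NNReal.coe_le_coe.2 h3
      _ = dist (f a) (f b) := coe_nndist _ _

theorem main {X Y : Type} [MetricSpace X] [MetricSpace Y] (hY : ULF Y) {f : Y → X}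
    (hf : CoarseEmb f) (h : OnlyCompactGhosts X) : OnlyCompactGhosts Y := by
  obtain ⟨ρm, ρp, hm, hp', ht, hρ⟩ := hf
  intro S hS q hq hp hg
  obtain ⟨A, hA1, hA2, hA3, hA4⟩ := hS
  set fz : S → X := fun z => f z.1 with hfz
  have hρm : ∀ y y' : S, ρm (nndist y y') ≤ nndist (fz y) (fz y') := fun y y' => (hρ y.1 y'.1).1
  have hρp : ∀ y y' : S, nndist (fz y) (fz y') ≤ ρp (nndist y y') := fun y y' => (hρ y.1 y'.1).2
  -- fibres
  obtain ⟨R0, hR0⟩ := (tendsto_atTop.1 ht 1).exists_forall_of_atTop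
  obtain ⟨N, hN⟩ := hY R0
  have hfib : ∀ z : S, {z' | fz z' = fz z}.encard ≤ N := by
    intro z
    have h1 : (Subtype.val '' {z' | fz z' = fz z}) ⊆ Metric.closedBall z.1 R0 := by
      rintro _ ⟨z', hz', rfl⟩
      rw [Metric.mem_closedBall]
      by_contra hd
      push Not at hd
      have h2 : R0 ≤ nndist z' z := by
        rw [← NNReal.coe_le_coe, coe_nndist]; exact hd.le
      have h3 := (hR0 _ h2).trans (hρm z' z)
      have h4 : nndist (fz z') (fz z) = 0 := by
        rw [show fz z' = fz z from hz', nndist_self]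
      rw [h4] at h3
      exact absurd h3 (by norm_num)
    rw [← Subtype.val_injective.encard_image]
    exact (Set.encard_le_encard h1).trans (hN z.1)
  obtain ⟨W, hW, g, hg1, hg2, hg3, hg4, hg5, hg6⟩ := corner N fz hfib hq hp hg
  apply hg6
  by_cases hfin : W.Finite
  · have h1 : IsCompactOperator (ind W * g : L2 S →L[ℂ] L2 S) := (compact_ind hfin).comp_clm g
    rwa [hg4] at h1
  · -- transport
    let j : (fz '' W : Set X) → S := fun x => Classical.choose x.2
    have hj1 : ∀ x, j x ∈ W := fun x => (Classical.choose_spec x.2).1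
    have hj2 : ∀ x, fz (j x) = x.1 := fun x => (Classical.choose_spec x.2).2
    have hj : Function.Injective j := by
      intro x y hxy
      apply Subtype.ext
      rw [← hj2 x, ← hj2 y, hxy]
    have hrange : Set.range j = W := by
      ext z
      constructor
      · rintro ⟨x, rfl⟩; exact hj1 x
      · intro hz
        exact ⟨⟨fz z, z, hz, rfl⟩, hW (hj1 _) hz (hj2 _)⟩
    have hsp : Sparse (fz '' W) := by
      apply sparse_image hm ht hρm (A := fun n => {z : S | z.1 ∈ A n}) _ _ _ _ hW hfin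
      · intro n
        exact ((hA1 n).1.preimage Subtype.val_injective.injOn)
      · intro n m hnm
        rw [Set.disjoint_left]
        intro z h1 h2
        exact Set.disjoint_left.1 (hA2 n m hnm) h1 h2
      · ext z
        constructor
        · intro _; trivial
        · intro _
          have : z.1 ∈ ⋃ n, A n := by rw [hA3]; exact z.2
          obtain ⟨n, hn⟩ := Set.mem_iUnion.1 this
          exact Set.mem_iUnion.2 ⟨n, hn⟩
      · intro R
        obtain ⟨K, hK⟩ := hA4 R
        exact ⟨K, fun n m hnm hk x hx y hy => hK n m hnm hk x.1 hx y.1 hy⟩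
    apply compact_of_tr hj (by rw [hrange]; exact hg4) (by rw [hrange]; exact hg5)
    apply h _ hsp
    · refine map_mem_closure (continuous_tr hj) hg1 ?_
      intro a ha
      obtain ⟨r, hr⟩ := ha
      refine ⟨ρp (Real.toNNReal r), fun x y hxy => ?_⟩
      rw [entry_tr] at hxy
      have h1 := hr _ _ hxy
      have h2 : nndist (j x) (j y) ≤ Real.toNNReal r := by
        rw [← NNReal.coe_le_coe, coe_nndist]
        exact h1.trans (Real.le_coe_toNNReal r)
      have h3 := (hρp (j x) (j y)).trans (hp' h2)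
      rw [hj2, hj2] at h3
      have h4 : dist x y = dist x.1 y.1 := rfl
      rw [h4, ← coe_nndist]
      exact NNReal.coe_le_coe.2 h3
    · exact isStarProjection_tr hj hg2 (by rw [hrange]; exact hg4)
    · intro ε hε
      obtain ⟨F, hF, hF2⟩ := hg3 ε hε
      refine ⟨j ⁻¹' F, hF.preimage hj.injOn, fun x y hxy => ?_⟩
      rw [entry_tr]
      exact hF2 _ _ hxy

end Pool.Agent.W676.Ghost
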