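import Pool.Agent.W676.Ghost.Defs

/-!
Basic operators on `L2 X` and closure properties of the uniform Roe algebra.
-/

namespace Pool.Agent.W676.Ghost

open Filter
open scoped Classical NNReal ENNReal

variable {X : Type}

lemma inner_del (x : X) (ξ : L2 X) : inner ℂ (del x) ξ = ξ x := by
  rw [del, lp.inner_single_left]; simp

lemma entry_eq (T : L2 X →L[ℂ] L2 X) (x y : X) : entry T x y = (T (del y)) x := inner_del _ _

lemma norm_del (x : X) : ‖del x‖ = 1 := by
  rw [del, lp.norm_single (by norm_num)]; simp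

lemma del_apply (x y : X) : (del x : L2 X) y = if y = x then 1 else 0 := by
  rw [del, lp.single_apply, Pi.single_apply]

lemma hasSum_del (ξ : L2 X) : HasSum (fun x => ξ x • (del x : L2 X)) ξ := by
  have h := lp.hasSum_single (p := 2) (by norm_num) ξ
  refine h.congr_fun ?_ |> id
  intro x
  rw [del, ← lp.single_smul]; simp

/-- the value of `T ξ` through the entries -/
lemma hasSum_apply (T : L2 X →L[ℂ] L2 X) (ξ : L2 X) (x : X) :
    HasSum (fun z => ξ z * entry T x z) ((T ξ) x) := by
  have h := (hasSum_del ξ).mapL T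
  have h2 := h.mapL (innerSL ℂ (del x))
  have e : (innerSL ℂ (del x)) (T ξ) = (T ξ) x := inner_del x (T ξ)
  rw [← e]
  refine h2.congr_fun ?_ |> id
  intro z
  rw [map_smul, map_smul, smul_eq_mul, innerSL_apply_apply]; rfl

lemma entry_mul (S T : L2 X →L[ℂ] L2 X) (x y : X) :
    HasSum (fun z => entry T z y * entry S x z) (entry (S * T) x y) := by
  have := hasSum_apply S (T (del y)) x
  rw [entry_eq (S * T)]
  refine this.congr_fun ?_ |> id
  intro z; rw [entry_eq T]

lemma entry_add (S T : L2 X →L[ℂ] L2 X) (x y : X) :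
    entry (S + T) x y = entry S x y + entry T x y := by
  simp [entry]

lemma entry_smul (c : ℂ) (T : L2 X →L[ℂ] L2 X) (x y : X) :
    entry (c • T) x y = c * entry T x y := by
  simp [entry]

section
variable [MetricSpace X]

lemma FinProp.add {S T : L2 X →L[ℂ] L2 X} (hS : FinProp S) (hT : FinProp T) : FinProp (S + T) := by
  obtain ⟨r, hr⟩ := hS
  obtain ⟨s, hs⟩ := hT
  refine ⟨max r s, fun x y h => ?_⟩
  by_contra hd
  push Not at hd
  apply h
  rw [entry_add]
  have h1 : entry S x y = 0 := by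
    by_contra h1; exact absurd (hr x y h1) (not_le.2 ((le_max_left _ _).trans_lt hd))
  have h2 : entry T x y = 0 := by
    by_contra h2; exact absurd (hs x y h2) (not_le.2 ((le_max_right _ _).trans_lt hd))
  rw [h1, h2, add_zero]

lemma FinProp.smul (c : ℂ) {T : L2 X →L[ℂ] L2 X} (hT : FinProp T) : FinProp (c • T) := by
  obtain ⟨s, hs⟩ := hT
  refine ⟨s, fun x y h => hs x y ?_⟩
  intro h0; apply h; rw [entry_smul, h0, mul_zero]

lemma FinProp.mul {S T : L2 X →L[ℂ] L2 X} (hS : FinProp S) (hT : FinProp T) : FinProp (S * T) := by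
  obtain ⟨r, hr⟩ := hS
  obtain ⟨s, hs⟩ := hT
  refine ⟨r + s, fun x y h => ?_⟩
  by_contra hd
  push Not at hd
  apply h
  have h1 := entry_mul S T x y
  have h2 : (fun z => entry T z y * entry S x z) = fun _ => 0 := by
    funext z
    by_cases h3 : entry T z y = 0
    · rw [h3, zero_mul]
    · by_cases h4 : entry S x z = 0
      · rw [h4, mul_zero]
      · exfalso
        have := dist_triangle x z y
        have h5 := hs z y h3
        have h6 := hr x z h4
        linarith
  rw [h2] at h1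
  exact h1.unique hasSum_zero

omit [MetricSpace X] in
lemma entry_one (x y : X) : entry (1 : L2 X →L[ℂ] L2 X) x y = if x = y then 1 else 0 := by
  rw [entry_eq]; exact del_apply y x

lemma FinProp.one : FinProp (1 : L2 X →L[ℂ] L2 X) := by
  refine ⟨0, fun x y h => ?_⟩
  rw [entry_one] at h
  split_ifs at h with h1
  · rw [h1, dist_self]
  · exact absurd rfl h

lemma uRoe_add {S T : L2 X →L[ℂ] L2 X} (hS : S ∈ uRoe X) (hT : T ∈ uRoe X) : S + T ∈ uRoe X :=
  map_mem_closure₂ continuous_add hS hT (fun _ ha _ hb => FinProp.add ha hb)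

lemma uRoe_mul {S T : L2 X →L[ℂ] L2 X} (hS : S ∈ uRoe X) (hT : T ∈ uRoe X) : S * T ∈ uRoe X :=
  map_mem_closure₂ continuous_mul hS hT (fun _ ha _ hb => FinProp.mul ha hb)

lemma uRoe_smul (c : ℂ) {T : L2 X →L[ℂ] L2 X} (hT : T ∈ uRoe X) : c • T ∈ uRoe X :=
  map_mem_closure (continuous_const_smul c) hT (fun _ ha => FinProp.smul c ha)

lemma uRoe_one : (1 : L2 X →L[ℂ] L2 X) ∈ uRoe X := subset_closure FinProp.one

lemma uRoe_zero : (0 : L2 X →L[ℂ] L2 X) ∈ uRoe X := by
  have := uRoe_smul 0 (uRoe_one (X := X)); rwa [zero_smul] at this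

lemma uRoe_sub {S T : L2 X →L[ℂ] L2 X} (hS : S ∈ uRoe X) (hT : T ∈ uRoe X) : S - T ∈ uRoe X := by
  have := uRoe_add hS (uRoe_smul (-1) hT)
  rwa [neg_one_smul, ← sub_eq_add_neg] at this

lemma uRoe_pow {T : L2 X →L[ℂ] L2 X} (hT : T ∈ uRoe X) (n : ℕ) : T ^ n ∈ uRoe X := by
  induction n with
  | zero => rw [pow_zero]; exact uRoe_one
  | succ n ih => rw [pow_succ]; exact uRoe_mul ih hT

lemma uRoe_sum {ι : Type*} (s : Finset ι) (f : ι → (L2 X →L[ℂ] L2 X)) (h : ∀ i ∈ s, f i ∈ uRoe X) :
    ∑ i ∈ s, f i ∈ uRoe X := by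
  induction s using Finset.induction_on with
  | empty => simpa using uRoe_zero
  | insert a s ha ih =>
    rw [Finset.sum_insert ha]
    exact uRoe_add (h a (Finset.mem_insert_self _ _))
      (ih (fun i hi => h i (Finset.mem_insert_of_mem hi)))

lemma isClosed_uRoe : IsClosed (uRoe X) := isClosed_closure

/-- finitely supported vectors -/
lemma finProp_rankOne_del (x y : X) : FinProp (InnerProductSpace.rankOne ℂ (del x) (del y)) := by
  refine ⟨dist x y, fun a b h => ?_⟩
  rw [entry_eq, InnerProductSpace.rankOne_apply, inner_del] at h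
  by_cases h1 : y = b
  · by_cases h2 : a = x
    · rw [h1, h2]
    · exfalso; apply h
      have : (((del b : L2 X) y • (del x : L2 X)) : L2 X) a = (del b : L2 X) y * (del x : L2 X) a := rfl
      rw [this, del_apply x a, if_neg h2, mul_zero]
  · exfalso; apply h
    rw [del_apply b y, if_neg h1, zero_smul]; rfl

lemma uRoe_rankOne (u w : L2 X) : InnerProductSpace.rankOne ℂ u w ∈ uRoe X := by
  -- first for w = del y
  have h1 : ∀ y, InnerProductSpace.rankOne ℂ u (del y) ∈ uRoe X := by
    intro y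
    have hs := (hasSum_del u).mapL ((InnerProductSpace.rankOne ℂ (E := L2 X) (F := L2 X)).flip (del y))
    apply isClosed_uRoe.mem_of_tendsto hs
    filter_upwards with s
    apply uRoe_sum
    intro x _
    rw [map_smul]
    exact uRoe_smul _ (subset_closure (finProp_rankOne_del x y))
  have hs := (hasSum_del w)
  have hc : Continuous fun w : L2 X => InnerProductSpace.rankOne ℂ u w :=
    (InnerProductSpace.rankOne ℂ u).continuous
  have ht : Tendsto (fun s : Finset X => InnerProductSpace.rankOne ℂ u (∑ y ∈ s, w y • (del y : L2 X)))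
      atTop (nhds (InnerProductSpace.rankOne ℂ u w)) := (hc.tendsto w).comp hs
  apply isClosed_uRoe.mem_of_tendsto ht
  filter_upwards with s
  rw [map_sum]
  apply uRoe_sum
  intro y _
  rw [map_smulₛₗ]
  exact uRoe_smul _ (h1 y)

end

/-! ### restriction and extension along an injection -/

variable {Z : Type}

lemma memlp_res {j : X → Z} (hj : Function.Injective j) (ξ : L2 Z) :
    Memℓp (fun x => (ξ (j x) : ℂ)) 2 := by
  apply memℓp_gen' (C := ‖ξ‖ ^ (2 : ℝ≥0∞).toReal)
  intro s
  have h := lp.sum_rpow_le_norm_rpow (p := 2) (by norm_num) ξ (s.image j)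
  rwa [Finset.sum_image (fun a _ b _ h => hj h)] at h

/-- Restriction along an injection. -/
noncomputable def res (j : X → Z) (hj : Function.Injective j) : L2 Z →L[ℂ] L2 X :=
  LinearMap.mkContinuous
    { toFun := fun ξ => ⟨fun x => ξ (j x), memlp_res hj ξ⟩
      map_add' := fun ξ η => by ext x; rfl
      map_smul' := fun c ξ => by ext x; rfl } 1 (by
      intro ξ
      rw [one_mul]
      apply lp.norm_le_of_forall_sum_le (by norm_num) (norm_nonneg _)
      intro s
      have h := lp.sum_rpow_le_norm_rpow (p := 2) (by norm_num) ξ (s.image j)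
      rwa [Finset.sum_image (fun a _ b _ h => hj h)] at h)

lemma res_apply {j : X → Z} (hj : Function.Injective j) (ξ : L2 Z) (x : X) :
    (res j hj ξ) x = ξ (j x) := rfl

lemma res_del {j : X → Z} (hj : Function.Injective j) (x : X) :
    res j hj (del (j x)) = del x := by
  ext y
  rw [res_apply, del_apply, del_apply]
  simp [hj.eq_iff]

lemma res_del_of_not {j : X → Z} (hj : Function.Injective j) {z : Z} (hz : z ∉ Set.range j) :
    res j hj (del z) = 0 := by
  ext y
  rw [res_apply, del_apply, if_neg (fun h => hz ⟨y, h⟩)]; rfl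

/-- Extension by zero along an injection. -/
noncomputable def ext (j : X → Z) (hj : Function.Injective j) : L2 X →L[ℂ] L2 Z :=
  ContinuousLinearMap.adjoint (res j hj)

lemma ext_apply {j : X → Z} (hj : Function.Injective j) (η : L2 X) (x : X) :
    (ext j hj η) (j x) = η x := by
  rw [← inner_del, ext, ContinuousLinearMap.adjoint_inner_right, res_del, inner_del]

lemma ext_apply_of_not {j : X → Z} (hj : Function.Injective j) (η : L2 X) {z : Z}
    (hz : z ∉ Set.range j) : (ext j hj η) z = 0 := by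
  rw [← inner_del, ext, ContinuousLinearMap.adjoint_inner_right, res_del_of_not hj hz,
    inner_zero_left]

lemma ext_del {j : X → Z} (hj : Function.Injective j) (x : X) :
    ext j hj (del x) = del (j x) := by
  ext z
  by_cases hz : z ∈ Set.range j
  · obtain ⟨y, rfl⟩ := hz
    rw [ext_apply, del_apply, del_apply]; simp [hj.eq_iff]
  · rw [ext_apply_of_not hj _ hz, del_apply, if_neg (fun h => hz ⟨x, h.symm⟩)]

lemma res_ext {j : X → Z} (hj : Function.Injective j) (η : L2 X) :
    res j hj (ext j hj η) = η := by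
  ext x; rw [res_apply, ext_apply]

/-- Multiplication by the indicator of a set. -/
noncomputable def ind (S : Set Z) : L2 Z →L[ℂ] L2 Z :=
  (ext (Subtype.val : S → Z) Subtype.val_injective).comp
    (res (Subtype.val : S → Z) Subtype.val_injective)

lemma ind_apply (S : Set Z) (ξ : L2 Z) (z : Z) : (ind S ξ) z = if z ∈ S then ξ z else 0 := by
  by_cases hz : z ∈ S
  · rw [if_pos hz]
    exact ext_apply (j := (Subtype.val : S → Z)) Subtype.val_injective _ ⟨z, hz⟩
  · rw [if_neg hz]
    have hn : z ∉ Set.range (Subtype.val : S → Z) := by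
      rintro ⟨⟨y, hy⟩, rfl⟩
      exact hz hy
    exact ext_apply_of_not (j := (Subtype.val : S → Z)) Subtype.val_injective
      (res (Subtype.val : S → Z) Subtype.val_injective ξ) hn

lemma ext_res {j : X → Z} (hj : Function.Injective j) (ξ : L2 Z) :
    ext j hj (res j hj ξ) = ind (Set.range j) ξ := by
  ext z
  rw [ind_apply]
  by_cases hz : z ∈ Set.range j
  · rw [if_pos hz]
    obtain ⟨y, rfl⟩ := hz
    rw [ext_apply, res_apply]
  · rw [if_neg hz, ext_apply_of_not hj _ hz]

lemma ind_mul (S T : Set Z) : ind S * ind T = ind (S ∩ T) := by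
  ext ξ z
  show (ind S (ind T ξ)) z = _
  rw [ind_apply, ind_apply, ind_apply]
  by_cases h1 : z ∈ S <;> by_cases h2 : z ∈ T <;> simp [h1, h2]

lemma ind_sq (S : Set Z) : ind S * ind S = ind S := by
  rw [ind_mul, Set.inter_self]

lemma ind_adj (S : Set Z) : star (ind S) = ind S := by
  rw [ContinuousLinearMap.star_eq_adjoint, ind, ContinuousLinearMap.adjoint_comp]
  rw [ext, ContinuousLinearMap.adjoint_adjoint]

lemma ind_add_compl (S : Set Z) : ind S + ind Sᶜ = 1 := by
  ext ξ z
  show (ind S ξ) z + (ind Sᶜ ξ) z = ξ z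
  rw [ind_apply, ind_apply]
  by_cases h1 : z ∈ S <;> simp [h1]

lemma ind_univ : ind (Set.univ : Set Z) = 1 := by
  ext ξ z
  show (ind Set.univ ξ) z = ξ z
  rw [ind_apply]; simp

lemma inner_ind (S : Set Z) (ξ : L2 Z) : inner ℂ ξ (ind S ξ) = ((‖ind S ξ‖ ^ 2 : ℝ) : ℂ) := by
  have h1 : ind S ξ = star (ind S) (ind S ξ) := by
    rw [ind_adj]
    show ind S ξ = (ind S * ind S) ξ
    rw [ind_sq]
  conv_lhs => rw [h1]
  rw [ContinuousLinearMap.star_eq_adjoint, ContinuousLinearMap.adjoint_inner_right,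
    inner_self_eq_norm_sq_to_K]
  push_cast; rfl

lemma norm_ind_split (S : Set Z) (ξ : L2 Z) : ‖ξ‖ ^ 2 = ‖ind S ξ‖ ^ 2 + ‖ind Sᶜ ξ‖ ^ 2 := by
  have h : inner ℂ ξ ξ = inner ℂ ξ (ind S ξ) + inner ℂ ξ (ind Sᶜ ξ) := by
    rw [← inner_add_right]
    congr 1
    have := congrArg (fun T : L2 Z →L[ℂ] L2 Z => T ξ) (ind_add_compl S)
    exact this.symm
  rw [inner_ind, inner_ind, inner_self_eq_norm_sq_to_K] at h
  have h2 := congrArg Complex.re h
  rw [Complex.add_re, Complex.ofReal_re, Complex.ofReal_re] at h2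
  have h3 : ((((‖ξ‖ : ℝ) : ℂ)) ^ 2).re = ‖ξ‖ ^ 2 := by
    rw [← Complex.ofReal_pow, Complex.ofReal_re]
  exact h3 ▸ h2

lemma norm_ind_le (S : Set Z) (ξ : L2 Z) : ‖ind S ξ‖ ≤ ‖ξ‖ := by
  have := norm_ind_split S ξ
  nlinarith [norm_nonneg (ind S ξ), norm_nonneg ξ, sq_nonneg ‖ind Sᶜ ξ‖]

lemma ind_finset (s : Finset Z) (ξ : L2 Z) : ind (s : Set Z) ξ = ∑ z ∈ s, ξ z • (del z : L2 Z) := by
  ext y
  rw [ind_apply]
  have h1 : ((∑ z ∈ s, ξ z • (del z : L2 Z) : L2 Z) : Z → ℂ) y =
      ∑ z ∈ s, ξ z * (del z : L2 Z) y := by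
    rw [← inner_del, inner_sum]
    apply Finset.sum_congr rfl
    intro z _
    rw [inner_smul_right, inner_del]
  rw [h1]
  by_cases h : y ∈ s
  · rw [if_pos (Finset.mem_coe.2 h), Finset.sum_eq_single y]
    · rw [del_apply]; simp
    · intro b _ hb; rw [del_apply, if_neg (Ne.symm hb), mul_zero]
    · intro hy; exact absurd h hy
  · rw [if_neg (fun h' => h (Finset.mem_coe.1 h'))]
    symm
    apply Finset.sum_eq_zero
    intro z hz
    have hyz : y ≠ z := by rintro rfl; exact h hz
    rw [del_apply, if_neg hyz, mul_zero]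

lemma tendsto_ind (ξ : L2 Z) :
    Tendsto (fun s : Finset Z => ind (s : Set Z) ξ) atTop (nhds ξ) := by
  have := hasSum_del ξ
  refine Tendsto.congr (fun s => (ind_finset s ξ).symm) this

lemma norm_ind_finset (s : Finset Z) (ξ : L2 Z) : ‖ind (s : Set Z) ξ‖ ^ 2 = ∑ z ∈ s, ‖ξ z‖ ^ 2 := by
  have h : inner ℂ ξ (ind (s : Set Z) ξ) = ((∑ z ∈ s, ‖ξ z‖ ^ 2 : ℝ) : ℂ) := by
    rw [ind_finset, inner_sum]
    push_cast
    apply Finset.sum_congr rfl
    intro z _
    rw [inner_smul_right]
    have : inner ℂ ξ (del z) = (starRingEnd ℂ) (ξ z) := by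
      rw [← inner_conj_symm, inner_del]
    rw [this, Complex.mul_conj, Complex.normSq_eq_norm_sq]; push_cast; rfl
  rw [inner_ind] at h
  exact_mod_cast h

lemma finProp_ind [MetricSpace Z] (S : Set Z) : FinProp (ind S) := by
  refine ⟨0, fun x y h => ?_⟩
  rw [entry_eq, ind_apply, del_apply] at h
  by_cases h1 : x = y
  · rw [h1, dist_self]
  · exfalso; apply h; simp [h1]

end Pool.Agent.W676.Ghost
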